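import Pool.Agent.H905Z.Fold

set_option autoImplicit false

namespace Pool.Agent.Results.MP_4efd57_nt.AConstWeightBounded

/-- There is a completely multiplicative `f` with values `±1` such that all the sums
`∑_{1 ≤ k ≤ n} f(kd) f(kd + d)` have modulus at most one. -/
theorem result : ∃ f : ℕ → ℂ, (∀ n, 1 ≤ n → ‖f n‖ = 1) ∧ (∀ n, 1 ≤ n → f n = 1 ∨ f n = -1) ∧
    (∀ m n, 1 ≤ m → 1 ≤ n → f (m * n) = f m * f n) ∧
    ∀ d n : ℕ, 1 ≤ d → 1 ≤ n → ‖∑ k ∈ Finset.Icc 1 n, f (k * d) * f (k * d + d)‖ ≤ 1 := by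
  refine ⟨fun n => (Pool.Agent.H905Z.Fold.pf n : ℂ), Pool.Agent.H905Z.Fold.norm_pf, ?_, ?_, ?_⟩
  · intro n hn
    rcases Pool.Agent.H905Z.Fold.pf_cases n (by omega) with h | h <;> simp [h]
  · intro m n _ _
    simp [Pool.Agent.H905Z.Fold.pf_mul]
  · intro d n hd _
    exact Pool.Agent.H905Z.Fold.main01 d n hd

end Pool.Agent.Results.MP_4efd57_nt.AConstWeightBounded
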