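import Pool.Agent.H905Z.Quad

set_option autoImplicit false

namespace Pool.Agent.Results.MP_4efd57_nt.BQuadWeightUnbounded

/-- For irrational `α` and all unimodular sequences `a`, `b`, the sums
`∑_{1 ≤ k ≤ n} e(k²α) a(kd) b(kd + d)` are unbounded over `d, n ≥ 1`. -/
theorem result (α : ℝ) (hα : Irrational α) (a b : ℕ → ℂ) (ha : ∀ n, 1 ≤ n → ‖a n‖ = 1)
    (hb : ∀ n, 1 ≤ n → ‖b n‖ = 1) (C : ℝ) :
    ∃ d n : ℕ, 1 ≤ d ∧ 1 ≤ n ∧ C < ‖∑ k ∈ Finset.Icc 1 n,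
      Complex.exp (2 * Real.pi * Complex.I * (((k : ℝ) ^ 2 * α : ℝ) : ℂ)) *
        a (k * d) * b (k * d + d)‖ := by
  obtain ⟨d, n, hd, hn, h⟩ := Pool.Agent.H905Z.Quad.main hα 2 ![a, b]
    (fun j => by fin_cases j <;> simpa) ![0, 1] C
  refine ⟨d, n, hd, hn, ?_⟩
  convert h using 2
  refine Finset.sum_congr rfl fun k _ => ?_
  simp [Pool.Agent.H905Z.Core.ee, Fin.prod_univ_two, mul_add, mul_comm d k, mul_assoc]

end Pool.Agent.Results.MP_4efd57_nt.BQuadWeightUnbounded
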